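import Mathlib
import Pool.Agent.X297.G6.QC

set_option autoImplicit false

namespace Pool.Agent.Results.MP_806cc9_co.ThresholdOneTwentyfifth

open Finset Filter Topology
open Pool.Agent.H488R3
open Pool.Agent.X297.G6
open Pool.Agent.Results.MP_35cd17_co.TGraphs
open scoped Classical

lemma min_bound {β : ℝ} (h0 : 0 ≤ β) (h1 : β ≤ 1) {n : ℕ} (hn : 0 < n) :
    |2 * ((min ⌊β * (n : ℝ) ^ 2 / 2⌋₊ (n.choose 2) : ℕ) : ℝ) / (n : ℝ) ^ 2 - β| ≤ 2 / (n : ℝ) := by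
  have hn' : (1:ℝ) ≤ n := by exact_mod_cast hn
  have h2 : (β - 2 / (n:ℝ)) ≤
      2 * ((min ⌊β * (n : ℝ) ^ 2 / 2⌋₊ (n.choose 2) : ℕ) : ℝ) / (n : ℝ) ^ 2 := by
    have hfl : β * (n : ℝ) ^ 2 / 2 < (⌊β * (n : ℝ) ^ 2 / 2⌋₊ : ℝ) + 1 := Nat.lt_floor_add_one _
    have hch : ((n.choose 2 : ℕ) : ℝ) = n * (n - 1) / 2 := Nat.cast_choose_two ℝ n
    rw [le_div_iff₀ (by positivity), Nat.cast_min, mul_min_of_nonneg _ _ (by norm_num : (0:ℝ) ≤ 2)]
    have e : (β - 2 / (n:ℝ)) * (n:ℝ) ^ 2 = β * (n:ℝ) ^ 2 - 2 * n := by field_simp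
    rw [e]
    apply le_min
    · linarith
    · rw [hch]
      nlinarith [mul_le_mul_of_nonneg_right h1 (sq_nonneg (n:ℝ))]
  have h3 : 2 * ((min ⌊β * (n : ℝ) ^ 2 / 2⌋₊ (n.choose 2) : ℕ) : ℝ) / (n : ℝ) ^ 2 ≤ β := by
    have hfl : (⌊β * (n : ℝ) ^ 2 / 2⌋₊ : ℝ) ≤ β * (n : ℝ) ^ 2 / 2 := Nat.floor_le (by positivity)
    rw [div_le_iff₀ (by positivity)]
    have : ((min ⌊β * (n : ℝ) ^ 2 / 2⌋₊ (n.choose 2) : ℕ) : ℝ) ≤ (⌊β * (n : ℝ) ^ 2 / 2⌋₊ : ℝ) := by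
      exact_mod_cast min_le_left _ _
    linarith
  have h4 : (0:ℝ) ≤ 2 / (n:ℝ) := by positivity
  rw [abs_le]
  constructor <;> linarith

/-- the value of the quasi-clique -/
lemma tval_qc {β : ℝ} (h0 : 0 ≤ β) (h1 : β ≤ 1) :
    tval graphG6 (csize β 1) = β ^ 3 := by
  obtain ⟨hw, he⟩ := size_mem h0 h1 zero_le_one le_rfl
  have h := diff_eq _ hw.2
  have hR : csize β 1 .R = 0 := by rw [csize_R]; simp
  rw [he, hR] at h
  linarith

lemma csize_R_pos {β q : ℝ} (h0 : 0 < β) (hq0 : 0 ≤ q) (hq1 : q < 1) :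
    0 < csize β q .R := by
  rw [csize_R]
  have h2 : Real.sqrt (1 - β * (1 - q ^ 2)) < 1 := by
    rw [Real.sqrt_lt' (by norm_num)]
    have : 0 < β * (1 - q ^ 2) := by
      apply mul_pos h0
      nlinarith
    linarith
  linarith

lemma csize_B_pos {β q : ℝ} (h0 : 0 ≤ β) (h1 : β < 1) : 0 < csize β q .B := by
  rw [csize_B]
  have h2 : Real.sqrt β * q < Real.sqrt (1 - β * (1 - q ^ 2)) := by
    apply Real.lt_sqrt_of_sq_lt
    rw [mul_pow, Real.sq_sqrt h0]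
    nlinarith
  linarith

lemma tval_max {β : ℝ} :
    ∃ q ∈ Set.Icc (0:ℝ) 1, ∀ q' ∈ Set.Icc (0:ℝ) 1,
      tval graphG6 (csize β q') ≤ tval graphG6 (csize β q) := by
  have hcont : Continuous (fun q => tval graphG6 (csize β q)) :=
    (tval_continuous graphG6).comp (csize_continuous β)
  obtain ⟨q, hq, hmax⟩ := isCompact_Icc.exists_isMaxOn (Set.nonempty_Icc.2 (zero_le_one (α := ℝ)))
    hcont.continuousOn
  exact ⟨q, hq, fun q' hq' => hmax hq'⟩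

/-- the maximal value for small densities -/
lemma interior {β : ℝ} (h0 : 0 < β) (h1 : β < 1 / 25) :
    ∃ q ∈ Set.Ioo (0:ℝ) 1, β ^ 3 < tval graphG6 (csize β q) ∧
      ∀ w ∈ KK, egy w = β → tval graphG6 w ≤ tval graphG6 (csize β q) := by
  obtain ⟨q, hq, hmax⟩ := tval_max (β := β)
  obtain ⟨q1, hq1, hb⟩ := exists_better h0 h1
  have hF : β ^ 3 < tval graphG6 (csize β q) := hb.trans_le (hmax q1 ⟨hq1.1.le, hq1.2.le⟩)
  have hne1 : q ≠ 1 := by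
    rintro rfl
    rw [tval_qc h0.le (by linarith)] at hF
    exact lt_irrefl _ hF
  have hne0 : q ≠ 0 := by
    rintro rfl
    obtain ⟨hw, he⟩ := size_mem h0.le (by linarith : β ≤ 1) le_rfl zero_le_one
    have := tval_star_lt hw (by rw [csize_Y]; simp) (csize_R_pos h0 le_rfl zero_lt_one)
      (csize_B_pos h0.le (by linarith))
    rw [he] at this
    exact lt_irrefl _ (this.trans hF)
  refine ⟨q, ⟨lt_of_le_of_ne hq.1 (Ne.symm hne0), lt_of_le_of_ne hq.2 hne1⟩, hF, ?_⟩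
  intro w hw he
  obtain ⟨q', hq', rfl⟩ := exists_q hw he
  exact hmax q' hq'

lemma G6_bot {n : ℕ} : (⊥ : SimpleGraph (Fin n)).copyCount graphG6 = 0 := by
  rw [SimpleGraph.copyCount_eq_zero]
  rintro ⟨f⟩
  have h : graphG6.Adj 0 1 := by simp [graphG6, SimpleGraph.fromEdgeSet_adj]
  exact (f.toHom.map_rel h : (⊥ : SimpleGraph (Fin n)).Adj _ _)

lemma exN_zero {n : ℕ} : exN n 0 graphG6 = 0 := by
  obtain ⟨H, h1, h2⟩ := exN_mem n 0 graphG6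
  have h3 : H.edgeSet = ∅ := by
    rw [← Set.ncard_eq_zero (Set.toFinite _)]; omega
  have h4 : H = ⊥ := by rwa [SimpleGraph.edgeSet_eq_empty] at h3
  rw [h2, h4, G6_bot]

lemma small_T {β : ℝ} (h0 : 0 < β) (h1 : β < 1 / 25) :
    ∃ t : ℝ, 0 < t ∧ t < 1 ∧ ∀ H, IsTSeq β t H → AsympMax graphG6 β H := by
  obtain ⟨q, hq, hF, hmax⟩ := interior h0 h1
  obtain ⟨hw, he⟩ := size_mem h0.le (by linarith : β ≤ 1) hq.1.le hq.2.le
  refine ⟨q, hq.1, hq.2, fun H hH => ⟨tseq_dens h0.le (by linarith) hq.1.le hq.2.le hH, ?_⟩⟩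
  rw [equiv_iff graphG6 h0 (by linarith) hmax ⟨_, hw, he, rfl⟩ (lt_trans (by positivity) hF) H
    (tseq_hom graphG6 hH)]

lemma small_not {β : ℝ} (h0 : 0 < β) (h1 : β < 1 / 25) {H : ∀ n : ℕ, SimpleGraph (Fin n)} {h : ℝ}
    (hh : h ≤ β ^ 3)
    (hH : Tendsto (fun n : ℕ => ((HM graphG6 (H n)).card : ℝ) / (n : ℝ) ^ Fintype.card (Fin 6))
      atTop (𝓝 h)) : ¬ AsympMax graphG6 β H := by
  rintro ⟨-, h2⟩
  obtain ⟨q, hq, hF, hmax⟩ := interior h0 h1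
  obtain ⟨hw, he⟩ := size_mem h0.le (by linarith : β ≤ 1) hq.1.le hq.2.le
  rw [equiv_iff graphG6 h0 (by linarith) hmax ⟨_, hw, he, rfl⟩ (lt_trans (by positivity) hF) H
    hH] at h2
  linarith

lemma small_QC {β : ℝ} (h0 : 0 < β) (h1 : β < 1 / 25) {a b : ℕ → ℕ} (h : IsQCSeq a b) :
    ¬ AsympMax graphG6 β (fun n => quasiClique n (a n) (b n)) := by
  intro hm
  have hd := (dens_iff h).1 hm.1
  have := qc_hom graphG6 (by linarith) h hd
  exact small_not h0 h1 (tval_qc h0.le (by linarith)).le this hm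

lemma big_max {β : ℝ} (h0 : 1 / 25 ≤ β) (h1 : β ≤ 1) :
    (∀ w ∈ KK, egy w = β → tval graphG6 w ≤ β ^ 3) ∧
      ∃ w ∈ KK, egy w = β ∧ tval graphG6 w = β ^ 3 := by
  refine ⟨?_, ?_⟩
  · intro w hw he
    rw [← he]
    exact tval_le hw (by rw [he]; exact h0)
  · obtain ⟨hw, he⟩ := size_mem (by linarith : 0 ≤ β) h1 zero_le_one le_rfl
    exact ⟨_, hw, he, tval_qc (by linarith) h1⟩

lemma big_QC {β : ℝ} (h0 : 1 / 25 ≤ β) (h1 : β ≤ 1) {a b : ℕ → ℕ} (h : IsQCSeq a b)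
    (hd : ∃ C : ℝ, ∀ n : ℕ, 0 < n →
      |2 * (((a n).choose 2 + b n : ℕ) : ℝ) / (n : ℝ) ^ 2 - β| ≤ C / n) :
    AsympMax graphG6 β (fun n => quasiClique n (a n) (b n)) := by
  refine ⟨(dens_iff h).2 hd, ?_⟩
  obtain ⟨hmax, hex⟩ := big_max h0 h1
  have hβ : 0 < β := by linarith
  rw [equiv_iff graphG6 hβ h1 hmax hex (by positivity) (fun n => quasiClique n (a n) (b n))
    (qc_hom graphG6 h1 h hd)]
  exact tval_qc hβ.le h1

lemma big_T {β : ℝ} (h0 : 1 / 25 ≤ β) (h1 : β < 1) {t : ℝ} (ht0 : 0 ≤ t) (ht1 : t < 1)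
    {H : ∀ n : ℕ, SimpleGraph (Fin n)} (hH : IsTSeq β t H) : ¬ AsympMax graphG6 β H := by
  rintro ⟨-, h2⟩
  obtain ⟨hmax, hex⟩ := big_max h0 h1.le
  have hβ : 0 < β := by linarith
  rw [equiv_iff graphG6 hβ h1.le hmax hex (by positivity) H (tseq_hom graphG6 hH)] at h2
  obtain ⟨hw, he⟩ := size_mem hβ.le h1.le ht0 ht1.le
  have := tval_lt hw (csize_R_pos hβ ht0 ht1) (csize_B_pos hβ.le h1) (by rw [he]; exact h0)
  rw [he] at this
  linarith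

lemma zero_T {t : ℝ} {H : ∀ n : ℕ, SimpleGraph (Fin n)} (hH : IsTSeq 0 t H) :
    AsympMax graphG6 0 H := by
  refine ⟨⟨0, fun n hn => ?_⟩, ?_⟩
  · rw [tseq_zero hH hn]
    simp
  · apply Asymptotics.IsEquivalent.congr_left (u := fun _ : ℕ => (0:ℝ))
    · apply Asymptotics.IsEquivalent.congr_right Asymptotics.IsEquivalent.refl
      filter_upwards with n
      simp [exN_zero]
    · filter_upwards [eventually_gt_atTop 0] with n hn
      rw [tseq_zero hH hn, G6_bot]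
      simp

/-- **The extremal type of `G_6`: the threshold is `1/25`.** -/
theorem result :
    (∀ β : ℝ, 0 ≤ β → β < 1 / 25 → ∃ t : ℝ, 0 < t ∧ t < 1 ∧ (∃ H, IsTSeq β t H) ∧
      ∀ H, IsTSeq β t H → AsympMax graphG6 β H) ∧
    (∀ β : ℝ, 1 / 25 ≤ β → β ≤ 1 →
      (∃ a b : ℕ → ℕ, IsQCSeq a b ∧
        (∀ n : ℕ, (a n).choose 2 + b n = min ⌊β * (n : ℝ) ^ 2 / 2⌋₊ (n.choose 2)) ∧
        AsympMax graphG6 β (fun n => quasiClique n (a n) (b n))) ∧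
      ∀ a b : ℕ → ℕ, IsQCSeq a b →
        (∃ C : ℝ, ∀ n : ℕ, 0 < n →
          |2 * (((a n).choose 2 + b n : ℕ) : ℝ) / (n : ℝ) ^ 2 - β| ≤ C / n) →
        AsympMax graphG6 β (fun n => quasiClique n (a n) (b n))) ∧
    (∀ β : ℝ, 0 < β → β < 1 / 25 →
      (∀ a b : ℕ → ℕ, IsQCSeq a b →
        ¬ AsympMax graphG6 β (fun n => quasiClique n (a n) (b n))) ∧
      ∀ t : ℝ, t = 0 ∨ t = 1 → ∀ H, IsTSeq β t H → ¬ AsympMax graphG6 β H) ∧
    (∀ β : ℝ, 1 / 25 ≤ β → β < 1 → ∀ t : ℝ, 0 ≤ t → t < 1 → ∀ H, IsTSeq β t H →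
      ¬ AsympMax graphG6 β H) ∧
    ¬ ∃ γ : ℝ, 0 < γ ∧ γ < 1 ∧
      (∀ β : ℝ, 0 ≤ β → β ≤ γ → ∃ t : ℝ, 0 < t ∧ t < 1 ∧ ∃ H, IsTSeq β t H ∧
        AsympMax graphG6 β H) ∧
      (∀ β : ℝ, γ ≤ β → β ≤ 1 → ∃ a b : ℕ → ℕ, IsQCSeq a b ∧
        AsympMax graphG6 β (fun n => quasiClique n (a n) (b n))) := by
  refine ⟨?_, ?_, ?_, ?_, ?_⟩
  · intro β h0 h1
    rcases eq_or_lt_of_le h0 with h | h
    · subst h
      exact ⟨1 / 2, by norm_num, by norm_num,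
        exists_tseq le_rfl (by norm_num) (by norm_num) (by norm_num), fun H hH => zero_T hH⟩
    · obtain ⟨t, ht0, ht1, hH⟩ := small_T h h1
      exact ⟨t, ht0, ht1, exists_tseq h0 (by linarith) ht0.le ht1.le, hH⟩
  · intro β h0 h1
    refine ⟨?_, fun a b h hd => big_QC h0 h1 h hd⟩
    choose a b hab using fun n : ℕ => exists_ab (min ⌊β * (n : ℝ) ^ 2 / 2⌋₊ (n.choose 2))
    have hq : IsQCSeq a b := by
      intro n _
      exact ⟨(hab n).1, by rw [(hab n).2]; exact min_le_right _ _⟩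
    refine ⟨a, b, hq, fun n => (hab n).2, big_QC h0 h1 hq ⟨2, fun n hn => ?_⟩⟩
    rw [(hab n).2]
    exact min_bound (by linarith) h1 hn
  · intro β h0 h1
    refine ⟨fun a b h => small_QC h0 h1 h, ?_⟩
    rintro t (rfl | rfl) H hH
    · obtain ⟨hw, he⟩ := size_mem h0.le (by linarith : β ≤ 1) le_rfl zero_le_one
      have := tval_star_lt hw (by rw [csize_Y]; simp) (csize_R_pos h0 le_rfl zero_lt_one)
        (csize_B_pos h0.le (by linarith))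
      rw [he] at this
      exact small_not h0 h1 this.le (tseq_hom graphG6 hH)
    · exact small_not h0 h1 (tval_qc h0.le (by linarith)).le (tseq_hom graphG6 hH)
  · intro β h0 h1 t ht0 ht1 H hH
    exact big_T h0 h1 ht0 ht1 hH
  · rintro ⟨γ, hγ0, hγ1, h1, h2⟩
    rcases lt_or_ge γ (1 / 25) with h | h
    · obtain ⟨a, b, hab, hm⟩ := h2 γ le_rfl hγ1.le
      exact small_QC hγ0 h hab hm
    · obtain ⟨t, ht0, ht1, H, hH, hm⟩ := h1 (1 / 25) (by norm_num) h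
      exact big_T le_rfl (by norm_num) ht0.le ht1 hH hm

end Pool.Agent.Results.MP_806cc9_co.ThresholdOneTwentyfifth
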